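import Pool.Agent.H96.JCT.Stmts

namespace Pool.JCT

open Complex Set Topology Filter

private theorem clo_z_inj {p q : Pl} (h : z p = z q) : p = q := by
  have h1 := congrArg Complex.re h
  have h2 := congrArg Complex.im h
  exact Prod.ext h1 h2

private theorem clo_tpi_ne : tpi ≠ 0 := Complex.two_pi_I_ne_zero

private theorem clo_int (h1 : ADD_S) (f : ℝ → Pl) (a b : ℝ) (p : Pl) (hf : Continuous f)
    (ho : Off f a b p) (hab : f a = f b) : ∃ n : ℤ, inc f a b p = n * tpi := by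
  have h2 := (h1 f p hf).2.2.2 a b ho
  have hne : z (f a) - z p ≠ 0 := by
    rw [sub_ne_zero]
    intro h
    exact ho a left_mem_uIcc (clo_z_inj h)
  rw [← hab, div_self hne, Complex.exp_eq_one_iff] at h2
  exact h2

/-- A continuous function on `[0,1]` with integer values is constant. -/
private theorem clo_const (r : ℝ → ℝ) (hr : ContinuousOn r (Icc 0 1))
    (hi : ∀ t ∈ Icc (0 : ℝ) 1, ∃ n : ℤ, r t = n) : r 0 = r 1 := by
  have h01 : (0 : ℝ) ∈ Icc (0 : ℝ) 1 := ⟨le_rfl, zero_le_one⟩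
  have h11 : (1 : ℝ) ∈ Icc (0 : ℝ) 1 := ⟨zero_le_one, le_rfl⟩
  obtain ⟨m, hm⟩ := hi 0 h01
  obtain ⟨n, hn⟩ := hi 1 h11
  have key : ∀ x : ℝ, x ∈ r '' Icc 0 1 → ∃ k : ℤ, x = k := by
    rintro x ⟨t, ht, rfl⟩
    exact hi t ht
  rcases lt_trichotomy m n with h | h | h
  · exfalso
    have h1 : (m : ℝ) + 1 / 2 ∈ Icc (r 0) (r 1) := by
      rw [hm, hn]
      have : (m : ℝ) + 1 ≤ n := by exact_mod_cast h
      constructor <;> linarith
    obtain ⟨k, hk⟩ := key _ (isPreconnected_Icc.intermediate_value h01 h11 hr h1)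
    have h2 : (2 * m + 1 : ℤ) = 2 * k := by
      have : (2 * (m : ℝ) + 1) = 2 * k := by rw [← hk]; ring
      exact_mod_cast this
    omega
  · rw [hm, hn, h]
  · exfalso
    have h1 : (n : ℝ) + 1 / 2 ∈ Icc (r 1) (r 0) := by
      rw [hm, hn]
      have : (n : ℝ) + 1 ≤ m := by exact_mod_cast h
      constructor <;> linarith
    obtain ⟨k, hk⟩ := key _ (isPreconnected_Icc.intermediate_value h11 h01 hr h1)
    have h2 : (2 * n + 1 : ℤ) = 2 * k := by
      have : (2 * (n : ℝ) + 1) = 2 * k := by rw [← hk]; ring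
      exact_mod_cast this
    omega

theorem clo_thm (h1 : ADD_S) (h2 : CTY_S) : CLO_S := by
  refine ⟨clo_int h1, ?_⟩
  intro H P a b hH hP ho hc
  have hu : uIcc (0 : ℝ) 1 = Icc 0 1 := uIcc_of_le zero_le_one
  have h3 := h2 H P a b 0 1 hH hP (by rw [hu]; exact ho)
  rw [hu] at h3
  have h4 : ∀ t ∈ Icc (0 : ℝ) 1, ∃ n : ℤ, inc (H t) a b (P t) = n * tpi := fun t ht =>
    clo_int h1 (H t) a b (P t) (hH.comp (Continuous.prodMk_right t)) (ho t ht) (hc t ht)
  have h5 : ContinuousOn (fun t => (inc (H t) a b (P t) / tpi).re) (Icc 0 1) :=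
    Complex.continuous_re.comp_continuousOn (h3.div_const tpi)
  have h6 : ∀ t ∈ Icc (0 : ℝ) 1, ∀ n : ℤ, inc (H t) a b (P t) = n * tpi →
      (inc (H t) a b (P t) / tpi).re = n := by
    intro t _ n hn
    rw [hn, mul_div_assoc, div_self clo_tpi_ne, mul_one]
    simp
  have h7 := clo_const _ h5 fun t ht => by
    obtain ⟨n, hn⟩ := h4 t ht
    exact ⟨n, h6 t ht n hn⟩
  have h01 : (0 : ℝ) ∈ Icc (0 : ℝ) 1 := ⟨le_rfl, zero_le_one⟩
  have h11 : (1 : ℝ) ∈ Icc (0 : ℝ) 1 := ⟨zero_le_one, le_rfl⟩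
  obtain ⟨m, hm⟩ := h4 0 h01
  obtain ⟨n, hn⟩ := h4 1 h11
  simp only [h6 0 h01 m hm, h6 1 h11 n hn] at h7
  have h8 : m = n := by exact_mod_cast h7
  rw [hm, hn, h8]

end Pool.JCT
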